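import Mathlib

set_option autoImplicit false

/-!
# A monotone consistent path system of diameter 2 which is not strictly metric
-/

namespace Pool.Agent.Results.MP_bd2bbd_co.SevenVertices

/-- The list l is the list of vertices of a simple u-v path of the complete graph on Fin n. -/
def IsPathList {n : ℕ} (u v : Fin n) (l : List (Fin n)) : Prop :=
  l.Nodup ∧ l.head? = some u ∧ l.getLast? = some v

/-- The weight of a path: the sum of the weights of its edges. -/
def weight {n : ℕ} (w : Sym2 (Fin n) → ℝ) : List (Fin n) → ℝ
  | a :: b :: l => w s(a, b) + weight w (b :: l)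
  | _ => 0

/-- A path system on n vertices: one simple path of the complete graph for each unordered pair of
distinct vertices (the path from v to u is the reverse of the path from u to v). -/
structure PathSystem (n : ℕ) where
  /-- the path between two vertices -/
  path : Fin n → Fin n → List (Fin n)
  /-- it is a simple path with the right ends -/
  isPath : ∀ u v, u ≠ v → IsPathList u v (path u v)
  /-- it does not depend on the order of the pair -/
  symm : ∀ u v, u ≠ v → path v u = (path u v).reverse

/-- Consistency: if a lies on the path between u and v, then this path is the concatenation of the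
paths from u to a and from a to v. -/
def Consistent {n : ℕ} (P : PathSystem n) : Prop :=
  ∀ u v a, u ≠ v → a ≠ u → a ≠ v → a ∈ P.path u v →
    P.path u v = P.path u a ++ (P.path a v).tail

/-- Diameter 2: the largest number of edges of a path of the system is 2 (a path with m vertices
has m - 1 edges). -/
def DiameterTwo {n : ℕ} (P : PathSystem n) : Prop :=
  (∀ u v, u ≠ v → (P.path u v).length ≤ 3) ∧ ∃ u v, u ≠ v ∧ (P.path u v).length = 3

/-- Monotonicity of the partial function f with f(u,v) = z when the path is u z v. -/
def Monotone {n : ℕ} (P : PathSystem n) : Prop :=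
  ∀ i j k z z', i ≠ j → i ≠ k → j ≤ k → P.path i j = [i, z, j] → P.path i k = [i, z', k] →
    z ≤ z'

/-- Strictly metric: for some positive weights on the edges of the complete graph, each path of the
system is the unique path of minimum weight between its ends. -/
def StrictlyMetric {n : ℕ} (P : PathSystem n) : Prop :=
  ∃ w : Sym2 (Fin n) → ℝ, (∀ u v, u ≠ v → 0 < w s(u, v)) ∧
    ∀ u v, u ≠ v → ∀ Q, IsPathList u v Q → Q ≠ P.path u v →
      weight w (P.path u v) < weight w Q

/-! ## The example -/

/-- The interior vertex (vertices are numbered from 0 to 6); none stands for an edge. -/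
def mid : Fin 7 → Fin 7 → Option (Fin 7) :=
  ![![none, none, some 3, none, none, none, none],
    ![none, none, none, none, none, some 0, some 2],
    ![some 3, none, none, none, none, some 4, none],
    ![none, none, none, none, some 1, some 6, none],
    ![none, none, none, some 1, none, none, none],
    ![none, some 0, some 4, some 6, none, none, none],
    ![none, some 2, none, none, none, none, none]]

/-- The paths. -/
def tab (u v : Fin 7) : List (Fin 7) :=
  match mid u v with
  | none => [u, v]
  | some z => [u, z, v]

instance (u v : Fin 7) (l : List (Fin 7)) : Decidable (IsPathList u v l) :=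
  inferInstanceAs (Decidable (_ ∧ _ ∧ _))

/-- The path system. -/
def P7 : PathSystem 7 where
  path := tab
  isPath := by decide +kernel
  symm := by decide +kernel

theorem consistent7 : Consistent P7 := by
  show ∀ u v a, u ≠ v → a ≠ u → a ≠ v → a ∈ tab u v → tab u v = tab u a ++ (tab a v).tail
  decide +kernel

theorem diameter7 : DiameterTwo P7 := by
  refine ⟨?_, ?_⟩
  · show ∀ u v, u ≠ v → (tab u v).length ≤ 3
    decide +kernel
  · exact ⟨0, 2, by decide, rfl⟩

theorem monotone7 : Monotone P7 := by
  intro i j k z z' hij hik hjk h1 h2
  have key : ∀ i j k : Fin 7, i ≠ j → i ≠ k → j ≤ k →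
      ∀ z ∈ mid i j, ∀ z' ∈ mid i k, z ≤ z' := by decide +kernel
  have conv : ∀ i j z : Fin 7, tab i j = [i, z, j] → mid i j = some z := by
    intro i j z h
    unfold tab at h
    cases hm : mid i j with
    | none => rw [hm] at h; simp at h
    | some y => rw [hm] at h; simp at h; rw [h]
  exact key i j k hij hik hjk z (conv i j z h1) z' (conv i k z' h2)

theorem not_strict : ¬ StrictlyMetric P7 := by
  rintro ⟨w, -, h⟩
  have key : ∀ u v : Fin 7, u ≠ v → ∀ Q, IsPathList u v Q → Q ≠ tab u v →
      weight w (tab u v) < weight w Q := h
  have h1 := key 1 5 (by decide) [1, 4, 5] (by decide) (by decide)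
  have h2 := key 2 5 (by decide) [2, 6, 5] (by decide) (by decide)
  have h3 := key 3 5 (by decide) [3, 0, 5] (by decide) (by decide)
  have h4 := key 1 6 (by decide) [1, 3, 6] (by decide) (by decide)
  have h5 := key 3 4 (by decide) [3, 2, 4] (by decide) (by decide)
  have h6 := key 0 2 (by decide) [0, 1, 2] (by decide) (by decide)
  have t1 : tab 1 5 = [1, 0, 5] := rfl
  have t2 : tab 2 5 = [2, 4, 5] := rfl
  have t3 : tab 3 5 = [3, 6, 5] := rfl
  have t4 : tab 1 6 = [1, 2, 6] := rfl
  have t5 : tab 3 4 = [3, 1, 4] := rfl
  have t6 : tab 0 2 = [0, 3, 2] := rfl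
  rw [t1] at h1
  rw [t2] at h2
  rw [t3] at h3
  rw [t4] at h4
  rw [t5] at h5
  rw [t6] at h6
  simp only [weight, add_zero] at h1 h2 h3 h4 h5 h6
  rw [Sym2.eq_swap (a := (1 : Fin 7)) (b := 0)] at h1
  rw [Sym2.eq_swap (a := (6 : Fin 7)) (b := 5)] at h2 h3
  rw [Sym2.eq_swap (a := (3 : Fin 7)) (b := 0)] at h3
  rw [Sym2.eq_swap (a := (3 : Fin 7)) (b := 1), Sym2.eq_swap (a := (3 : Fin 7)) (b := 2)] at h5
  rw [Sym2.eq_swap (a := (3 : Fin 7)) (b := 2)] at h6
  linarith

/-- **Negative answer to Q1**: for n = 7 there is a monotone consistent path system of diameter 2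
which is not strictly metric. -/
theorem result : ∃ (n : ℕ) (P : PathSystem n),
    Consistent P ∧ DiameterTwo P ∧ Monotone P ∧ ¬ StrictlyMetric P :=
  ⟨7, P7, consistent7, diameter7, monotone7, not_strict⟩

end Pool.Agent.Results.MP_bd2bbd_co.SevenVertices
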